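import Pool.Agent.Q236.CP.Win

set_option autoImplicit false

/-!
# Jumping champions: the most frequent gaps between sifted integers
-/

namespace Pool.Agent.Q236.JC

open Finset Filter Pool.Agent.H373R2.T7 Pool.Agent.W123.RP Pool.Agent.W123.RU Pool.Agent.TH464.PO
open Pool.Agent.Q236.CP

/-- `n` and `n + t` are consecutive elements of the set `g` -/
def Cons (g : ℕ → Prop) (t n : ℕ) : Prop := g n ∧ g (n + t) ∧ ∀ j : ℕ, 1 ≤ j → j < t → ¬ g (n + j)

open Classical in
/-- the number of gaps of length `t` starting in `(Z, Z + Y]` -/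
noncomputable def cg (g : ℕ → Prop) (Z Y t : ℕ) : ℕ := ((Ioc Z (Z + Y)).filter (fun n => Cons g t n)).card

/-- gaps of length `t` are rare -/
lemma cg_le (g : ℕ → Prop) (Z Y t : ℕ) (ht : 1 ≤ t) : (cg g Z Y t : ℝ) ≤ Y / t + 2 := by
  classical
  have h1 : cg g Z Y t ≤ (Icc (Z / t) ((Z + Y) / t)).card := by
    unfold cg
    apply card_le_card_of_injOn (fun n => n / t)
    · intro n hn
      rw [mem_coe, mem_filter, mem_Ioc] at hn
      rw [mem_coe, mem_Icc]
      exact ⟨Nat.div_le_div_right (by omega), Nat.div_le_div_right (by omega)⟩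
    · have key : ∀ n ∈ ((Ioc Z (Z + Y)).filter (fun n => Cons g t n)),
          ∀ m ∈ ((Ioc Z (Z + Y)).filter (fun n => Cons g t n)), n / t = m / t → n ≤ m := by
        intro n hn m hm hnm
        rw [mem_filter] at hn hm
        by_contra hlt
        push Not at hlt
        have h2 : m + t ≤ n := by
          by_contra h3
          push Not at h3
          have h4 := hm.2.2.2 (n - m) (by omega) (by omega)
          rw [show m + (n - m) = n by omega] at h4
          exact h4 hn.2.1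
        have h5 : m / t + 1 ≤ n / t := by
          rw [← Nat.add_div_right m (by omega : 0 < t)]
          exact Nat.div_le_div_right h2
        omega
      intro n hn m hm hnm
      exact le_antisymm (key n hn m hm hnm) (key m hm n hn hnm.symm)
  rw [Nat.card_Icc] at h1
  have h2 : (Z + Y) / t ≤ Z / t + Y / t + 1 := by
    have a1 := Nat.div_add_mod Z t
    have a2 := Nat.div_add_mod Y t
    have a3 := Nat.mod_lt Z (by omega : 0 < t)
    have a4 := Nat.mod_lt Y (by omega : 0 < t)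
    have h3 : (Z + Y) / t < Z / t + Y / t + 2 := by
      rw [Nat.div_lt_iff_lt_mul (by omega)]
      nlinarith
    omega
  have h3 : cg g Z Y t ≤ Y / t + 2 := by
    generalize (Z + Y) / t = a at h1 h2
    generalize Z / t = b at h1 h2
    generalize Y / t = d at h2 ⊢
    omega
  calc (cg g Z Y t : ℝ) ≤ ((Y / t + 2 : ℕ) : ℝ) := by exact_mod_cast h3
    _ ≤ Y / t + 2 := by
      push_cast
      have := @Nat.cast_div_le ℝ _ _ _ Y t
      linarith

/-- the weight of a pair at distance `t` -/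
noncomputable def Wt (Q : ℕ → ℕ → Prop) (y t : ℕ) : ℝ := Vq (QH Q {0, t}) y

open Classical in
/-- upper bound for the number of pairs -/
lemma pairs_le (c : ℕ) (hc : 1 ≤ c) (ε : ℝ) (hε : 0 < ε) : ∃ K0 y0 : ℕ, 1 ≤ K0 ∧
    ∀ (Q : ℕ → ℕ → Prop) (Z Y y t : ℕ), PerB Q c → y0 ≤ y → y ^ K0 ≤ Y → 1 ≤ t →
      (cg (Sf Q y) Z Y t : ℝ) ≤ (1 + ε) * (Y * Wt Q y t) + √(Y : ℝ) := by
  obtain ⟨K0, x0, hK0, hfund⟩ := sys_fund (2 * c) (by omega) ε hε
  refine ⟨K0, x0, hK0, ?_⟩
  intro Q Z Y y t hQ hy hyY ht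
  have hper : PerB (QH (Qt Q Z) {0, t}) (2 * c) := by
    apply perB_mono (perB_QH (Qt Q Z) c (perB_Qt Q c hQ Z) {0, t})
    rw [card_pair (by omega : (0 : ℕ) ≠ t)]
  have h1 := hfund Y y hy hyY (QH (Qt Q Z) {0, t}) hper Y
  have e1 : ∏ p ∈ pz y, (1 - (nuB (QH (Qt Q Z) {0, t}) p : ℝ) / p) = Wt Q y t :=
    Vq_QH_Qt Q c hQ {0, t} Z y
  rw [e1] at h1
  have h2 := (abs_le.1 h1).2
  have h3 : cg (Sf Q y) Z Y t ≤
      ((Icc 1 Y).filter (fun n : ℕ => ∀ p ∈ pz y, ¬ QH (Qt Q Z) {0, t} p n)).card := by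
    unfold cg
    apply card_le_card_of_injOn (fun n => n - Z)
    · intro n hn
      rw [mem_coe, mem_filter, mem_Ioc] at hn
      rw [mem_coe, mem_filter, mem_Icc]
      have hn1 := hn.1
      refine ⟨⟨by show 1 ≤ n - Z; omega, by show n - Z ≤ Y; omega⟩, ?_⟩
      rintro p hp ⟨h, hh, hq⟩
      unfold Qt at hq
      rw [mem_insert, mem_singleton] at hh
      rcases hh with rfl | rfl
      · rw [show n - Z + 0 + Z = n by omega] at hq
        exact hn.2.1 p hp hq
      · rw [show n - Z + h + Z = n + h by omega] at hq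
        exact hn.2.2.1 p hp hq
    · intro n hn m hm hnm
      rw [mem_coe, mem_filter, mem_Ioc] at hn hm
      simp only at hnm
      omega
  have h4 : (cg (Sf Q y) Z Y t : ℝ) ≤
      (((Icc 1 Y).filter (fun n : ℕ => ∀ p ∈ pz y, ¬ QH (Qt Q Z) {0, t} p n)).card : ℝ) := by exact_mod_cast h3
  linarith

/-- a multiple of `p` adds no new classes -/
lemma nuB_dvd (Q : ℕ → ℕ → Prop) (c : ℕ) (hQ : PerB Q c) (p t : ℕ) (h : p ∣ t) :
    nuB (QH Q {0, t}) p = nuB Q p := by
  classical
  unfold nuB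
  congr 1
  ext r
  rw [mem_filter, mem_filter]
  apply and_congr_right
  intro _
  have h1 : Q p (r + t) ↔ Q p (r + 0) := by
    apply per_add Q c hQ p r r t 0 rfl
    rw [Nat.mod_eq_zero_of_dvd h, Nat.zero_mod]
  unfold QH
  constructor
  · rintro ⟨a, ha, hq⟩
    rw [mem_insert, mem_singleton] at ha
    rcases ha with rfl | rfl
    · exact hq
    · exact h1.1 hq
  · intro hq
    exact ⟨0, mem_insert_self _ _, hq⟩

/-- the classes of `Q` are among those of the pair -/
lemma nuB_ge (Q : ℕ → ℕ → Prop) (p t : ℕ) : nuB Q p ≤ nuB (QH Q {0, t}) p := by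
  classical
  unfold nuB
  apply card_le_card
  intro r hr
  rw [mem_filter] at hr ⊢
  exact ⟨hr.1, 0, mem_insert_self _ _, hr.2⟩

/-- a nonmultiple of `q` adds a new class -/
lemma nuB_new (Q : ℕ → ℕ → Prop) (c : ℕ) (hQ : PerB Q c) (q t : ℕ) (hq : q.Prime) (h : ¬ q ∣ t)
    (h1 : 1 ≤ nuB Q q) (h2 : nuB Q q < q) : nuB Q q + 1 ≤ nuB (QH Q {0, t}) q := by
  classical
  by_contra hcon
  push Not at hcon
  have heq : nuB (QH Q {0, t}) q = nuB Q q := le_antisymm (by omega) (nuB_ge Q q t)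
  unfold nuB at heq
  have hsub : (range q).filter (fun r => Q q r) ⊆ (range q).filter (fun r => QH Q {0, t} q r) := by
    intro r hr
    rw [mem_filter] at hr ⊢
    exact ⟨hr.1, 0, mem_insert_self _ _, hr.2⟩
  have hset := eq_of_subset_of_card_le hsub heq.le
  -- the set of classes is invariant
  have hinv : ∀ m : ℕ, Q q (m + t) → Q q m := by
    intro m hm
    have h3 : m % q ∈ (range q).filter (fun r => QH Q {0, t} q r) := by
      rw [mem_filter, mem_range]
      refine ⟨Nat.mod_lt _ hq.pos, t, by simp, ?_⟩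
      exact (per_add Q c hQ q m (m % q) t t (Nat.mod_mod m q).symm rfl).1 hm
    rw [← hset, mem_filter] at h3
    exact (hQ.per q m).2 h3.2
  -- every class is a class of `Q`
  obtain ⟨r0, hr0⟩ : ∃ r, Q q r := by
    by_contra hno
    push Not at hno
    have : nuB Q q = 0 := by
      unfold nuB
      rw [filter_eq_empty_iff.2 (fun r _ => hno r), card_empty]
    omega
  have hall : ∀ j : ℕ, Q q (r0 + j * (q - 1) * t) := by
    intro j
    induction j with
    | zero => simpa using hr0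
    | succ j ih =>
      apply hinv
      have e : (r0 + j * (q - 1) * t) % q = (r0 + (j + 1) * (q - 1) * t + t) % q := by
        have hq1 : q - 1 + 1 = q := by have := hq.one_lt; omega
        have : r0 + (j + 1) * (q - 1) * t + t = r0 + j * (q - 1) * t + q * t := by
          calc r0 + (j + 1) * (q - 1) * t + t = r0 + j * (q - 1) * t + (q - 1 + 1) * t := by ring
            _ = _ := by rw [hq1]
        rw [this, Nat.add_mul_mod_self_left]
      rw [hQ.per q, ← e, ← hQ.per q]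
      exact ih
  have hcop : Nat.Coprime ((q - 1) * t) q := by
    apply Nat.Coprime.mul_left
    · have := hq.one_lt
      have h5 : Nat.Coprime (q - 1) (q - 1 + 1) := by simp
      rwa [show q - 1 + 1 = q by omega] at h5
    · exact ((Nat.Prime.coprime_iff_not_dvd hq).2 h).symm
  have hfull : ∀ r : ℕ, Q q r := by
    intro r
    obtain ⟨j, hj⟩ : ∃ j : ℕ, (r0 + j * (q - 1) * t) % q = r % q := by
      have h6 : ((q - 1) * t).gcd q = 1 := hcop
      obtain ⟨j, hj⟩ := Nat.exists_mul_mod_eq_one_of_coprime hcop hq.one_lt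
      refine ⟨j * (r + (q - r0 % q)), ?_⟩
      have hj2 : ((q - 1) * t) * j ≡ 1 [MOD q] := by
        unfold Nat.ModEq
        rw [Nat.mod_eq_of_lt hq.one_lt]
        exact hj.2
      have h7 : r0 + j * (r + (q - r0 % q)) * (q - 1) * t ≡ r [MOD q] := by
        have h8 : r0 + j * (r + (q - r0 % q)) * (q - 1) * t =
            r0 + ((q - 1) * t * j) * (r + (q - r0 % q)) := by ring
        rw [h8]
        have h9 : r0 + ((q - 1) * t * j) * (r + (q - r0 % q)) ≡ r0 % q + 1 * (r + (q - r0 % q)) [MOD q] :=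
          Nat.ModEq.add (Nat.mod_modEq r0 q).symm (Nat.ModEq.mul_right _ hj2)
        refine h9.trans ?_
        have h10 : r0 % q + 1 * (r + (q - r0 % q)) = r + q := by
          have := Nat.mod_lt r0 hq.pos
          omega
        rw [h10]
        exact Nat.add_modEq_right
      exact h7
    rw [hQ.per q r, ← hj, ← hQ.per q]
    exact hall j
  have : nuB Q q = q := by
    unfold nuB
    rw [filter_true_of_mem (fun r _ => hfull r), card_range]
  omega

/-- comparison of the weights at the small primes -/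
lemma small_cmp (Q : ℕ → ℕ → Prop) (c : ℕ) (hQ : PerB Q c) (hadm : ∀ p : ℕ, p.Prime → nuB Q p < p)
    (z t t0 q : ℕ) (ht0 : ∀ p ∈ pz z, p ∣ t0) (hq : q ∈ pz z) (hqt : ¬ q ∣ t) (h1 : 1 ≤ nuB Q q) :
    (1 + 1 / (q : ℝ)) * Vq (QH Q {0, t}) z ≤ Vq (QH Q {0, t0}) z := by
  classical
  have hqp := (mem_pz.1 hq).2
  have hq0 : (0 : ℝ) < q := by exact_mod_cast hqp.pos
  unfold Vq
  rw [← Finset.mul_prod_erase _ _ hq, ← Finset.mul_prod_erase (pz z) (fun p => 1 - (nuB (QH Q {0, t0}) p : ℝ) / p) hq,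
    ← mul_assoc]
  have hfac : ∀ p ∈ (pz z).erase q, (0 : ℝ) ≤ 1 - (nuB (QH Q {0, t}) p : ℝ) / p := by
    intro p hp
    exact one_sub_nonneg _ p (mem_pz.1 (mem_of_mem_erase hp)).2
  apply mul_le_mul
  · rw [nuB_dvd Q c hQ q t0 (ht0 q hq)]
    have h2 : ((nuB Q q : ℝ) + 1) ≤ nuB (QH Q {0, t}) q := by
      exact_mod_cast nuB_new Q c hQ q t hqp hqt h1 (hadm q hqp)
    have h3 : 1 - (nuB (QH Q {0, t}) q : ℝ) / q ≤ 1 - ((nuB Q q : ℝ) + 1) / q := by
      have : ((nuB Q q : ℝ) + 1) / q ≤ (nuB (QH Q {0, t}) q : ℝ) / q := by gcongr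
      linarith
    have h4 : (1 + 1 / (q : ℝ)) * (1 - (nuB (QH Q {0, t}) q : ℝ) / q) ≤
        (1 + 1 / (q : ℝ)) * (1 - ((nuB Q q : ℝ) + 1) / q) := mul_le_mul_of_nonneg_left h3 (by positivity)
    refine h4.trans ?_
    have h5 : (1 + 1 / (q : ℝ)) * (1 - ((nuB Q q : ℝ) + 1) / q) =
        1 - (nuB Q q : ℝ) / q - ((nuB Q q : ℝ) + 1) / q * (1 / q) := by
      field_simp
      ring
    rw [h5]
    have : 0 ≤ ((nuB Q q : ℝ) + 1) / q * (1 / q) := by positivity
    linarith
  · apply prod_le_prod hfac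
    intro p hp
    have hpz := mem_of_mem_erase hp
    have hp0 : (0 : ℝ) < p := by exact_mod_cast (mem_pz.1 hpz).2.pos
    rw [nuB_dvd Q c hQ p t0 (ht0 p hpz)]
    have : (nuB Q p : ℝ) / p ≤ (nuB (QH Q {0, t}) p : ℝ) / p := by
      apply div_le_div_of_nonneg_right _ hp0.le
      exact_mod_cast nuB_ge Q p t
    linarith
  · exact prod_nonneg hfac
  · exact one_sub_nonneg _ q hqp

lemma prs_pair (t : ℕ) (ht : 1 ≤ t) : prs ({0, t} : Finset ℕ) = {(0, t)} := by
  ext x
  unfold prs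
  rw [mem_filter, mem_product, mem_insert, mem_singleton, mem_insert, mem_singleton, mem_singleton]
  constructor
  · rintro ⟨⟨h1, h2⟩, h3⟩
    ext <;> simp <;> omega
  · intro h
    rw [h]
    simp only
    exact ⟨⟨Or.inl trivial, Or.inr trivial⟩, by omega⟩

/-- the factor of the large collision primes -/
lemma Fp_le_exp (Q : ℕ → ℕ → Prop) (K z y t : ℕ) (hz : 1 ≤ z) (ε1 : ℝ)
    (h : ∀ S : Finset ℕ, (∀ p ∈ S, p ∈ pz y ∧ z < p ∧ CoG Q p t) → (S.card : ℝ) ≤ ε1 * z) :
    Fp Q K z y t ≤ Real.exp (K * ε1) := by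
  classical
  unfold Fp
  have hz0 : (0 : ℝ) < z := by exact_mod_cast hz
  obtain ⟨S, hS⟩ : ∃ S, S = (pz y).filter (fun p : ℕ => z < p ∧ CoG Q p t) := ⟨_, rfl⟩
  have hcard := h S (by
    intro p hp
    rw [hS, mem_filter] at hp
    exact ⟨hp.1, hp.2.1, hp.2.2⟩)
  have e : ∏ p ∈ (pz y).filter (fun p : ℕ => z < p ∧ CoG Q p t), (1 + (K : ℝ) / p) = ∏ p ∈ S, (1 + (K : ℝ) / p) := by
    rw [hS]
  refine le_trans (le_of_eq (by convert e)) ?_
  calc ∏ p ∈ S, (1 + (K : ℝ) / p) ≤ ∏ _p ∈ S, Real.exp ((K : ℝ) / z) := by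
        apply Finset.prod_le_prod
        · intro p _; positivity
        · intro p hp
          rw [hS, mem_filter] at hp
          have h1 : (z : ℝ) ≤ p := by exact_mod_cast hp.2.1.le
          have h2 : (K : ℝ) / p ≤ K / z := by gcongr
          have h3 := Real.add_one_le_exp ((K : ℝ) / z)
          linarith
    _ = Real.exp ((K : ℝ) / z * S.card) := by
        rw [Finset.prod_const, ← Real.exp_nat_mul]
        congr 1
        ring
    _ ≤ _ := by
        apply Real.exp_le_exp.2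
        calc (K : ℝ) / z * S.card ≤ K / z * (ε1 * z) := by gcongr
          _ = K * ε1 := by field_simp

end Pool.Agent.Q236.JC
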