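import Pool.Agent.Q236.JC.Champ

set_option autoImplicit false

/-!
# Jumping champions: the general theorem
-/

namespace Pool.Agent.Q236.JC

open Finset Filter Pool.Agent.H373R2.T7 Pool.Agent.W123.RP Pool.Agent.W123.RU Pool.Agent.TH464.PO
open Pool.Agent.Q236.CP

open Classical in
lemma cg_ge (Q : ℕ → ℕ → Prop) (y Z Y t : ℕ) :
    ((OmZ Q y {0, t} Z Y).filter (fun n => NB Q y (Icc 1 t \ {0, t}) n ∈ ({0} : Finset ℕ))).card ≤
      cg (Sf Q y) Z Y t := by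
  unfold cg
  apply card_le_card
  intro n hn
  rw [mem_filter] at hn
  obtain ⟨h1, h2⟩ := hn
  unfold OmZ at h1
  rw [mem_filter] at h1
  rw [mem_singleton] at h2
  unfold NB at h2
  rw [card_eq_zero, filter_eq_empty_iff] at h2
  rw [mem_filter]
  refine ⟨h1.1, ?_, ?_, ?_⟩
  · have := h1.2 0 (mem_insert_self _ _)
    rwa [add_zero] at this
  · exact h1.2 t (by simp)
  · intro j hj hjt hs
    apply h2 _ hs
    rw [Finset.mem_sdiff, mem_Icc, mem_insert, mem_singleton]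
    exact ⟨⟨hj, hjt.le⟩, by omega⟩

open Classical in
/-- **Jumping champions**, general form. -/
theorem champ_gen (c q0 : ℕ) (hc : 1 ≤ c) (hq0 : 2 ≤ q0) :
    ∃ (K0 y0 T0 R0 z0 : ℕ) (η' κ ε1 : ℝ), 0 < η' ∧ 0 < κ ∧ 0 < ε1 ∧
      ∀ (Q : ℕ → ℕ → Prop) (Z Y y z : ℕ), PerB Q c → (∀ p : ℕ, p.Prime → nuB Q p < p) → y0 ≤ y →
      y ^ K0 ≤ Y → Vq Q y ≤ κ →
      (∀ T : ℕ, κ ≤ T * Vq Q y → T * Vq Q y ≤ 1 → T0 ≤ T ∧ T ^ R0 ≤ Y ∧ ∀ t ∈ Icc 1 T,
        ((((pz y).filter (fun p : ℕ => T < p ∧ CoG Q p t)).card : ℕ) : ℝ) ≤ η' * T) →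
      z0 ≤ z → z ≤ y → Mw z * Vq Q y ≤ κ → √(Y : ℝ) ≤ ε1 * (Y * Vq Q y ^ 2) →
      (∀ t : ℕ, 1 ≤ t → t * Vq Q y ^ 2 ≤ 2 → ∀ S : Finset ℕ,
        (∀ p ∈ S, p ∈ pz y ∧ z < p ∧ CoG Q p t) → (S.card : ℝ) ≤ ε1 * z) →
      ∀ t : ℕ, 1 ≤ t → (∀ t' : ℕ, 1 ≤ t' → cg (Sf Q y) Z Y t' ≤ cg (Sf Q y) Z Y t) →
      ∀ q : ℕ, q.Prime → q ≤ q0 → 1 ≤ nuB Q q → q ∣ t := by
  obtain ⟨ε, hε⟩ : ∃ ε : ℝ, ε = 1 / (16 * q0) := ⟨_, rfl⟩
  have hq0r : (2 : ℝ) ≤ q0 := by exact_mod_cast hq0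
  have hε0 : 0 < ε := by rw [hε]; positivity
  have hε32 : ε ≤ 1 / 32 := by
    rw [hε, div_le_div_iff₀ (by positivity) (by norm_num)]
    linarith
  obtain ⟨K1, y1, T0, R0, η', κ1, hη', hκ1, hκ12, hlaw⟩ := cp_law c 2 hc 1 ε zero_le_one hε0
  obtain ⟨K2, y2, hK2, hpairs⟩ := pairs_le c hc ε hε0
  obtain ⟨Kf, hKf⟩ : ∃ Kf, Kf = (1 + 2 * (2 * c)) ^ (2 ^ 2) - 1 := ⟨_, rfl⟩
  obtain ⟨m, hm⟩ := exists_nat_ge (((2 * c : ℕ) : ℝ) ^ 2 / ε)
  refine ⟨K1 + K2, max (max y1 y2) 1, T0, R0, max (max (4 * c) m) (q0 + 1), η', min κ1 ε, ε / (Kf + 1),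
    hη', by positivity, by positivity, ?_⟩
  intro Q Z Y y z hQ hadm hy hyY hVκ hT hz hzy hMz hsq hcoll t ht hmax q hqp hqq0 hνq
  have hV0 : 0 < Vq Q y := Vq_pos Q hadm y
  have hε1ε : ε / (Kf + 1) ≤ ε := by
    apply div_le_self hε0.le
    have : (0 : ℝ) ≤ Kf := Nat.cast_nonneg _
    linarith
  have hy1 : 1 ≤ y := by omega
  have hyK1 : y ^ K1 ≤ Y := (Nat.pow_le_pow_right hy1 (by omega)).trans hyY
  have hyK2 : y ^ K2 ≤ Y := (Nat.pow_le_pow_right hy1 (by omega)).trans hyY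
  have hY1 : 1 ≤ Y := le_trans (Nat.one_le_pow _ _ hy1) hyK1
  have hYr : (1 : ℝ) ≤ Y := by exact_mod_cast hY1
  have hz1 : 1 ≤ z := by omega
  have hzr : (0 : ℝ) < z := by exact_mod_cast hz1
  have hcz : ((2 * c : ℕ) : ℝ) ^ 2 / z ≤ ε := by
    have h1 : ((2 * c : ℕ) : ℝ) ^ 2 / ε ≤ z := hm.trans (by exact_mod_cast (by omega : m ≤ z))
    rw [div_le_iff₀ hε0] at h1
    rw [div_le_iff₀ hzr]
    linarith
  obtain ⟨V, hV⟩ : ∃ V, V = Vq Q y := ⟨_, rfl⟩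
  rw [← hV] at hV0 hVκ hT hMz hsq hcoll
  obtain ⟨t0, ht0⟩ : ∃ t0, t0 = Mw z := ⟨_, rfl⟩
  have ht0pos : 1 ≤ t0 := by rw [ht0]; exact Mw_pos z
  have hdvd : ∀ p ∈ pz z, p ∣ t0 := by
    intro p hp
    rw [ht0]
    exact Finset.dvd_prod_of_mem _ hp
  rw [← ht0] at hMz
  have hcard : ∀ s : ℕ, 1 ≤ s → ({0, s} : Finset ℕ).card = 2 := fun s hs => card_pair (by omega)
  -- the pattern `{0, t0}` is admissible
  have hadm0 : ∀ p : ℕ, p.Prime → nuB (QH Q {0, t0}) p < p := by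
    intro p hp
    by_cases hpz : p ≤ z
    · rw [nuB_dvd Q c hQ p t0 (hdvd p (mem_pz.2 ⟨hpz, hp⟩))]
      exact hadm p hp
    · have h1 := nuB_QH_le Q c hQ {0, t0} p
      rw [hcard t0 ht0pos] at h1
      have h2 := hQ.few p hp
      have : 2 * nuB Q p ≤ 2 * c := by omega
      omega
  -- splitting
  obtain ⟨U, hU⟩ : ∃ U, U = Vt Q z y := ⟨_, rfl⟩
  have hU0 : 0 ≤ U := by rw [hU]; exact Vt_nonneg Q z y
  have hVs : V = Vq Q z * U := by rw [hV, hU]; exact Vq_split Q z y hzy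
  obtain ⟨W0, hW0⟩ : ∃ W0, W0 = Wt Q y t0 := ⟨_, rfl⟩
  have hW0s : W0 = Vq (QH Q {0, t0}) z * Vt (QH Q {0, t0}) z y := by
    rw [hW0]; exact Vq_split _ z y hzy
  have hVz0 : 0 ≤ Vq (QH Q {0, t0}) z := Vq_nonneg _ z
  have hlo : U ^ 2 * (1 - ε) ≤ Vt (QH Q {0, t0}) z y := by
    have h1 := tail_lo Q c hQ {0, t0} z y hz1 (by
      rw [hcard t0 ht0pos]
      omega)
    rw [hcard t0 ht0pos, ← hU] at h1
    refine le_trans ?_ h1
    apply mul_le_mul_of_nonneg_left _ (by positivity)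
    linarith
  have hW0lo : Vq (QH Q {0, t0}) z * (U ^ 2 * (1 - ε)) ≤ W0 := by
    rw [hW0s]
    exact mul_le_mul_of_nonneg_left hlo hVz0
  have hVz1 : Vq (QH Q {0, t0}) z = Vq Q z := by
    unfold Vq
    apply prod_congr rfl
    intro p hp
    rw [nuB_dvd Q c hQ p t0 (hdvd p hp)]
  have hW0V : V ^ 2 * (1 - ε) ≤ W0 := by
    refine le_trans ?_ hW0lo
    rw [hVz1, hVs]
    have h1 := Vq_le_one Q z
    have h2 := Vq_nonneg Q z
    have h3 : 0 ≤ U ^ 2 * (1 - ε) := mul_nonneg (by positivity) (by linarith)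
    calc (Vq Q z * U) ^ 2 * (1 - ε) = Vq Q z * (Vq Q z * (U ^ 2 * (1 - ε))) := by ring
      _ ≤ 1 * (Vq Q z * (U ^ 2 * (1 - ε))) := mul_le_mul_of_nonneg_right h1 (mul_nonneg h2 h3)
      _ = _ := one_mul _
  have hW0pos : 0 < W0 := lt_of_lt_of_le (mul_pos (by positivity) (by linarith)) hW0V
  -- the lower bound for the champion
  have hlow : Y * W0 * (1 - 2 * ε) ≤ (cg (Sf Q y) Z Y t0 : ℝ) := by
    have h1 := (hlaw Q Z Y y hQ hadm (by omega) hyK1 (by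
        rw [← hV]
        exact hVκ.trans (min_le_left _ _)) (by
        rw [← hV]
        intro T h1 h2
        rw [max_self] at h2
        exact hT T ((min_le_left _ _).trans h1) h2) {0, t0} t0 (by rw [hcard t0 ht0pos]) (by
        intro a ha
        rw [mem_insert, mem_singleton] at ha
        omega) hadm0 (by
        rw [← hV]
        refine hMz.trans ((min_le_right _ _).trans ?_)
        linarith)).2 {0}
    rw [← hV, sum_singleton, pow_zero, Nat.factorial_zero, Nat.cast_one, div_one, mul_one] at h1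
    have h2 := (abs_le.1 h1).1
    have h3 : (((OmZ Q y {0, t0} Z Y).filter (fun n => NB Q y (Icc 1 t0 \ {0, t0}) n ∈ ({0} : Finset ℕ))).card : ℝ) ≤
        (cg (Sf Q y) Z Y t0 : ℝ) := by exact_mod_cast cg_ge Q y Z Y t0
    have h4 : 1 - ε ≤ Real.exp (-(t0 * V)) := by
      have h5 := Real.add_one_le_exp (-(t0 * V))
      have h6 : t0 * V ≤ ε := hMz.trans (min_le_right _ _)
      linarith
    have e : Vq (QH Q {0, t0}) y = W0 := by rw [hW0]; rfl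
    rw [e] at h2
    have hYW : 0 ≤ Y * W0 := by positivity
    nlinarith [mul_le_mul_of_nonneg_left h4 hYW]
  have hmax0 : (cg (Sf Q y) Z Y t0 : ℝ) ≤ cg (Sf Q y) Z Y t := by exact_mod_cast hmax t0 ht0pos
  have hsq1 : 1 ≤ √(Y : ℝ) := by
    rw [Real.one_le_sqrt]
    exact hYr
  have hYV0 : 0 ≤ Y * V ^ 2 := by positivity
  have hsq2 : √(Y : ℝ) ≤ ε * (Y * V ^ 2) := hsq.trans (mul_le_mul_of_nonneg_right hε1ε hYV0)
  have hYV : 32 ≤ Y * V ^ 2 := by nlinarith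
  -- the champion is not too large
  have hts : t * V ^ 2 ≤ 2 := by
    by_contra hcon
    push Not at hcon
    have htr : (0 : ℝ) < t := by exact_mod_cast ht
    have h1 := cg_le (Sf Q y) Z Y t ht
    have h2 : (Y : ℝ) / t ≤ Y * V ^ 2 / 2 := by
      rw [div_le_iff₀ htr]
      nlinarith
    have h3 : Y * (V ^ 2 * (1 - ε)) * (1 - 2 * ε) ≤ Y * W0 * (1 - 2 * ε) := by
      apply mul_le_mul_of_nonneg_right _ (by linarith)
      exact mul_le_mul_of_nonneg_left hW0V (by linarith)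
    have h4 : (9 / 10) * (Y * V ^ 2) ≤ Y * (V ^ 2 * (1 - ε)) * (1 - 2 * ε) := by
      have h5 : (9 / 10 : ℝ) ≤ (1 - ε) * (1 - 2 * ε) := by nlinarith
      calc (9 / 10) * (Y * V ^ 2) ≤ (1 - ε) * (1 - 2 * ε) * (Y * V ^ 2) := mul_le_mul_of_nonneg_right h5 hYV0
        _ = _ := by ring
    linarith
  by_contra hqt
  -- the upper bound
  have hqz : q ∈ pz z := mem_pz.2 ⟨by omega, hqp⟩
  have hsm := small_cmp Q c hQ hadm z t t0 q hdvd hqz hqt hνq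
  have hup : Vt (QH Q {0, t}) z y ≤ U ^ 2 * (1 + 2 * ε) := by
    have h1 := tail_up Q c hQ {0, t} z y (by
      rw [hcard t ht]
      omega)
    rw [hcard t ht, prs_pair t ht, sum_singleton, ← hU, ← hKf] at h1
    refine h1.trans ?_
    apply mul_le_mul_of_nonneg_left _ (by positivity)
    have h2 := Fp_le_exp Q Kf z y (t - 0) hz1 (ε / (Kf + 1)) (by
      rw [Nat.sub_zero]
      exact hcoll t ht hts)
    have h3 : Real.exp (Kf * (ε / (Kf + 1))) ≤ Real.exp ε := by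
      apply Real.exp_le_exp.2
      have : (0 : ℝ) ≤ Kf := Nat.cast_nonneg _
      rw [← mul_div_assoc, div_le_iff₀ (by linarith)]
      nlinarith
    have h4 : Real.exp ε ≤ 1 + 2 * ε := by
      have h5 := Real.abs_exp_sub_one_le (x := ε) (by rw [abs_of_nonneg hε0.le]; linarith)
      rw [abs_of_nonneg hε0.le] at h5
      have := (abs_le.1 h5).2
      linarith
    have h5 : (1 : ℝ) + (Fp Q Kf z y ((0, t).2 - (0, t).1) - 1) = Fp Q Kf z y (t - 0) := by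
      simp only
      ring
    rw [h5]
    linarith
  obtain ⟨W1, hW1⟩ : ∃ W1, W1 = Wt Q y t := ⟨_, rfl⟩
  have hW1s : W1 = Vq (QH Q {0, t}) z * Vt (QH Q {0, t}) z y := by
    rw [hW1]; exact Vq_split _ z y hzy
  have hW10 : 0 ≤ W1 := by rw [hW1]; exact Vq_nonneg _ y
  have hqr : (0 : ℝ) < q := by exact_mod_cast hqp.pos
  have h16 : 16 * ε ≤ 1 / (q : ℝ) := by
    have h1 : 16 * ε = 1 / (q0 : ℝ) := by rw [hε]; field_simp
    rw [h1]
    apply one_div_le_one_div_of_le hqr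
    exact_mod_cast hqq0
  have hcmp : (1 + 16 * ε) * (W1 * (1 - ε)) ≤ W0 * (1 + 2 * ε) := by
    have h1 : Vt (QH Q {0, t}) z y * (1 - ε) ≤ U ^ 2 * (1 - ε) * (1 + 2 * ε) := by
      have := mul_le_mul_of_nonneg_right hup (show 0 ≤ 1 - ε by linarith)
      linarith
    have h2 : (1 + 1 / (q : ℝ)) * (W1 * (1 - ε)) ≤ W0 * (1 + 2 * ε) := by
      have h3 : 0 ≤ Vt (QH Q {0, t}) z y * (1 - ε) := mul_nonneg (Vt_nonneg _ z y) (by linarith)
      calc (1 + 1 / (q : ℝ)) * (W1 * (1 - ε)) =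
          ((1 + 1 / (q : ℝ)) * Vq (QH Q {0, t}) z) * (Vt (QH Q {0, t}) z y * (1 - ε)) := by rw [hW1s]; ring
        _ ≤ Vq (QH Q {0, t0}) z * (U ^ 2 * (1 - ε) * (1 + 2 * ε)) := mul_le_mul hsm h1 h3 hVz0
        _ = (Vq (QH Q {0, t0}) z * (U ^ 2 * (1 - ε))) * (1 + 2 * ε) := by ring
        _ ≤ W0 * (1 + 2 * ε) := mul_le_mul_of_nonneg_right hW0lo (by linarith)
    refine le_trans ?_ h2
    apply mul_le_mul_of_nonneg_right _ (mul_nonneg hW10 (by linarith))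
    linarith
  have hub := hpairs Q Z Y y t hQ (by omega) hyK2 ht
  rw [← hW1] at hub
  have hY0 : (0 : ℝ) ≤ Y := by linarith
  obtain ⟨G, hG⟩ : ∃ G : ℝ, G = Y * W0 := ⟨_, rfl⟩
  have hG0 : 0 < G := by rw [hG]; positivity
  -- combine
  have c1 : (1 - ε) * √(Y : ℝ) ≤ ε * G := by
    have h1 : (1 - ε) * √(Y : ℝ) ≤ (1 - ε) * (ε * (Y * V ^ 2)) := mul_le_mul_of_nonneg_left hsq2 (by linarith)
    have h2 : Y * (V ^ 2 * (1 - ε)) ≤ Y * W0 := mul_le_mul_of_nonneg_left hW0V hY0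
    rw [hG]
    nlinarith
  have c2 : (1 + 16 * ε) * ((1 + ε) * (Y * W1)) * (1 - ε) ≤ (1 + ε) * (1 + 2 * ε) * G := by
    have h1 := mul_le_mul_of_nonneg_left hcmp (show 0 ≤ (1 + ε) * Y by positivity)
    rw [hG]
    nlinarith
  have c3 : (1 + 16 * ε) * (1 - ε) * (cg (Sf Q y) Z Y t : ℝ) ≤
      (1 + ε) * (1 + 2 * ε) * G + (1 + 16 * ε) * (ε * G) := by
    have h1 := mul_le_mul_of_nonneg_left hub (show 0 ≤ (1 + 16 * ε) * (1 - ε) from
      mul_nonneg (by linarith) (by linarith))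
    have h2 := mul_le_mul_of_nonneg_left c1 (show 0 ≤ 1 + 16 * ε by linarith)
    nlinarith
  have c4 : (1 + 16 * ε) * (1 - ε) * (G * (1 - 2 * ε)) ≤ (1 + ε) * (1 + 2 * ε) * G + (1 + 16 * ε) * (ε * G) := by
    refine le_trans ?_ c3
    apply mul_le_mul_of_nonneg_left _ (mul_nonneg (by linarith) (by linarith))
    rw [hG]
    linarith
  have c5 : (1 + 16 * ε) * (1 - ε) * (1 - 2 * ε) ≤ (1 + ε) * (1 + 2 * ε) + (1 + 16 * ε) * ε := by
    by_contra hcon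
    push Not at hcon
    have := mul_lt_mul_of_pos_right hcon hG0
    linarith
  have c6 : ε * (9 - 64 * ε + 32 * ε ^ 2) ≤ 0 := by
    have e : (1 + 16 * ε) * (1 - ε) * (1 - 2 * ε) - ((1 + ε) * (1 + 2 * ε) + (1 + 16 * ε) * ε) =
        ε * (9 - 64 * ε + 32 * ε ^ 2) := by ring
    linarith
  have c7 : 0 < 9 - 64 * ε + 32 * ε ^ 2 := by nlinarith [sq_nonneg ε]
  have := mul_pos hε0 c7
  linarith

end Pool.Agent.Q236.JC
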