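import Pool.Agent.Q236.JC.Gen
import Pool.Agent.Q236.EV.Sizes

set_option autoImplicit false

/-!
# Jumping champions for systems of polynomials
-/

namespace Pool.Agent.Q236.JC

open Polynomial Finset Filter
open Pool.Agent.W123.RP Pool.Agent.H373R2.T7 Pool.Agent.W123.RU Pool.Agent.W123.RU.Poly
open Pool.Agent.TH464.PW Pool.Agent.TH464.PO Pool.Agent.Y879.AP Pool.Agent.Y879.GL Pool.Agent.Q236.GW
open Pool.Agent.Q236.CP Pool.Agent.Q236.EV

lemma US_mono {k D : ℕ} {H H' U U' : ℝ} {f : Fin k → ℤ[X]} (h : US k D H U f) (hH : H ≤ H') (hU : U' ≤ U) :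
    US k D H' U' f :=
  ⟨h.irr, h.deg, h.degD, fun i n => (h.hgt i n).trans hH, h.adm, fun i j t ht htU => h.tr i j t ht (htU.trans hU)⟩

/-- the size of the product of the resultants -/
lemma RR_small (k D E c : ℕ) (v : ℝ) (hv : 0 < v) : ∃ A : ℕ, ∀ᶠ X : ℕ in atTop, ∀ f : Fin k → ℤ[X],
    US k D (Real.log X ^ E) X f → ∀ t : ℕ, 1 ≤ t → (t : ℝ) ≤ 2 / v ^ 2 * Real.log X ^ (2 * c) →
      0 < RR f t ∧ (RR f t : ℝ) ≤ Real.log X ^ A := by
  have hlogX : Tendsto (fun X : ℕ => Real.log (X : ℝ)) atTop atTop :=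
    Real.tendsto_log_atTop.comp tendsto_natCast_atTop_atTop
  refine ⟨(1 + 2 * D * (1 + E + (2 * c + 1) * D)) * (k * k), ?_⟩
  filter_upwards [hlogX.eventually_ge_atTop (((2 * D).factorial : ℝ) + (D + 1) * 2 ^ D + 2 / v ^ 2 + 1),
    logpow_rpow (2 * c) (2 / v ^ 2) 1 (by positivity) one_pos] with X h1 h2
  intro f hf t ht htU
  obtain ⟨L, hL⟩ : ∃ L, L = Real.log (X : ℝ) := ⟨_, rfl⟩
  rw [← hL] at h1 h2 hf htU ⊢
  rw [Real.rpow_one] at h2
  have hf0 : (0 : ℝ) ≤ ((2 * D).factorial : ℝ) := Nat.cast_nonneg _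
  have hd0 : (0 : ℝ) ≤ ((D : ℝ) + 1) * 2 ^ D := by positivity
  have hv0 : 0 ≤ 2 / v ^ 2 := by positivity
  have hL1 : 1 ≤ L := by linarith
  have hL0 : 0 ≤ L := by linarith
  obtain ⟨U, hU⟩ : ∃ U : ℝ, U = 2 / v ^ 2 * L ^ (2 * c) := ⟨_, rfl⟩
  rw [← hU] at h2 htU
  have hU0 : 0 ≤ U := by rw [hU]; positivity
  have hUL : U ≤ L ^ (2 * c + 1) := by
    have h3 : 2 / v ^ 2 ≤ L := by linarith
    calc U = 2 / v ^ 2 * L ^ (2 * c) := hU
      _ ≤ L * L ^ (2 * c) := mul_le_mul_of_nonneg_right h3 (by positivity)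
      _ = L ^ (2 * c + 1) := by ring
  have hf' : US k D (L ^ E) U f := US_mono hf le_rfl h2
  refine ⟨RR_pos hf' t ht htU, ?_⟩
  refine (RR_le hf' (one_le_pow₀ hL1) t ht htU).trans ?_
  rw [pow_mul L]
  apply pow_le_pow_left₀ (by positivity)
  have h3 : ((D : ℝ) + 1) * (L ^ E * (U ^ D * 2 ^ D)) ≤ L ^ (1 + E + (2 * c + 1) * D) := by
    calc ((D : ℝ) + 1) * (L ^ E * (U ^ D * 2 ^ D)) = (((D : ℝ) + 1) * 2 ^ D) * (L ^ E * U ^ D) := by ring
      _ ≤ L * (L ^ E * (L ^ (2 * c + 1)) ^ D) := by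
          apply mul_le_mul (by linarith) _ (by positivity) hL0
          apply mul_le_mul_of_nonneg_left _ (by positivity)
          exact pow_le_pow_left₀ hU0 hUL D
      _ = _ := by rw [← pow_mul]; ring
  calc ((2 * D).factorial : ℝ) * (((D : ℝ) + 1) * (L ^ E * (U ^ D * 2 ^ D))) ^ (2 * D) ≤
      L * (L ^ (1 + E + (2 * c + 1) * D)) ^ (2 * D) := by
        apply mul_le_mul (by linarith) _ (by positivity) hL0
        exact pow_le_pow_left₀ (by positivity) h3 _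
    _ = _ := by rw [← pow_mul]; ring

open Classical in
/-- **Jumping champions** for the almost prime values of systems of polynomials. -/
theorem champ_sys (k D E q0 : ℕ) (hq0 : 2 ≤ q0) (θ : ℝ) (hθ : 0 < θ) :
    ∃ r0 : ℕ, 2 ≤ r0 ∧ ∀ r : ℕ, r0 ≤ r → ∀ Cv : ℝ, 0 < Cv → ∀ᶠ X : ℕ in atTop, ∀ f : Fin k → ℤ[X],
      US k D (Real.log X ^ E) X f → Vq (Q f) X ≤ Cv / Real.log X →
      ∀ Z Y : ℕ, (X : ℝ) ^ θ ≤ Y → ∀ t : ℕ, 1 ≤ t →
      (∀ t' : ℕ, 1 ≤ t' → cg (Sf (Q f) ⌊(X : ℝ) ^ (1 / (r : ℝ))⌋₊) Z Y t' ≤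
        cg (Sf (Q f) ⌊(X : ℝ) ^ (1 / (r : ℝ))⌋₊) Z Y t) →
      ∀ q : ℕ, q.Prime → q ≤ q0 → 1 ≤ nuB (Q f) q → q ∣ t := by
  obtain ⟨c, hc⟩ : ∃ c, c = k * D + 1 := ⟨_, rfl⟩
  obtain ⟨K0, y0, T0, R0, z0, η', κ, ε1, hη', hκ, hε1, hgen⟩ := champ_gen c q0 (by omega) hq0
  obtain ⟨r0, hr0, hsz⟩ := us_sizes k D 1 1 θ one_pos one_pos hθ K0 y0 T0 R0 η' κ 1 hη' hκ one_pos
  obtain ⟨v, hv, hVlow⟩ := V_lower_unif c
  obtain ⟨A, hA⟩ := RR_small k D E c v hv
  refine ⟨r0, hr0, ?_⟩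
  intro r hr Cv hCv
  have hr2 : 2 ≤ r := hr0.trans hr
  have hrr : (2 : ℝ) ≤ r := by exact_mod_cast hr2
  obtain ⟨C, hC, hlev⟩ := Vq_level c r hr2
  obtain ⟨C', hC'⟩ : ∃ C', C' = C * Cv := ⟨_, rfl⟩
  have hC'0 : 0 < C' := by rw [hC']; positivity
  have hlogX : Tendsto (fun X : ℕ => Real.log (X : ℝ)) atTop atTop :=
    Real.tendsto_log_atTop.comp tendsto_natCast_atTop_atTop
  have hLL : Tendsto (fun X : ℕ => Real.log (Real.log (X : ℝ))) atTop atTop :=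
    Real.tendsto_log_atTop.comp hlogX
  have hLp : Tendsto (fun X : ℕ => Real.log (X : ℝ) ^ (3 / 10 : ℝ)) atTop atTop :=
    (tendsto_rpow_atTop (by norm_num)).comp hlogX
  filter_upwards [hsz r hr Cv hCv, hlev, hA, eventually_ge_atTop 16,
    hLL.eventually_ge_atTop (6 + 2 * z0 + 3 * Real.exp (3 * A / ε1)),
    hLp.eventually_ge_atTop (C' / κ), logpow_rpow 1 1 (1 / (2 * r : ℝ)) one_pos (by positivity),
    logpow_rpow (2 * c) (1 / (ε1 * v ^ 2)) (θ / 2) (by positivity) (by positivity),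
    logpow_rpow E 1 1 one_pos one_pos] with X a1 a2 a3 a4 a5 a6 a7 a8 a9
  intro f hf hV Z Y hY t ht hmax q hq hqq0 hν
  have hX16 : (16 : ℝ) ≤ X := by exact_mod_cast a4
  have hX0 : (0 : ℝ) < X := by linarith
  obtain ⟨L, hL⟩ : ∃ L, L = Real.log (X : ℝ) := ⟨_, rfl⟩
  obtain ⟨L2, hL2⟩ : ∃ L2, L2 = Real.log L := ⟨_, rfl⟩
  rw [← hL] at a5 a6 a7 a8 a9
  rw [← hL2] at a5
  have hexp0 : 0 < Real.exp (3 * A / ε1) := Real.exp_pos _
  have hz0r : (0 : ℝ) ≤ z0 := Nat.cast_nonneg _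
  have hL26 : 6 ≤ L2 := by linarith
  have hLpos : 0 < L := by
    rw [hL]
    exact Real.log_pos (by linarith)
  have hLL2 : L = Real.exp L2 := by rw [hL2, Real.exp_log hLpos]
  have hL1 : 1 ≤ L := by
    rw [hLL2]
    exact Real.one_le_exp (by linarith)
  have hL2L : L2 ≤ L := by
    rw [hLL2]
    have := Real.add_one_le_exp L2
    linarith
  rw [one_mul, Real.rpow_one] at a9
  rw [one_mul, pow_one] at a7
  have hUS : US k D ((X : ℝ) ^ (1 : ℝ)) ((X : ℝ) ^ (1 : ℝ)) f := by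
    rw [Real.rpow_one]
    refine US_mono hf ?_ le_rfl
    rw [← hL]
    exact a9
  obtain ⟨b1, b2, b3, b4⟩ := a1 f hUS hV Y hY
  have hQ : PerB (Q f) c := by rw [hc]; exact us_perB hf
  have hadm := us_adm hf
  obtain ⟨c1, c2⟩ := a2 (Q f) hQ hadm
  obtain ⟨hy1, hy2, hy3, hy4⟩ := level_low r hr2 X (by omega) (by linarith)
  obtain ⟨y, hy⟩ : ∃ y, y = ⌊(X : ℝ) ^ (1 / (r : ℝ))⌋₊ := ⟨_, rfl⟩
  rw [← hy] at hmax b1 b2 b3 b4 c1 c2 hy1 hy2 hy3 hy4
  have hLy : L ≤ y := a7.trans hy1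
  obtain ⟨z, hz⟩ : ∃ z, z = ⌊L2 / 2⌋₊ := ⟨_, rfl⟩
  have hz2 : (z : ℝ) ≤ L2 / 2 := by rw [hz]; exact Nat.floor_le (by linarith)
  have hz1 : L2 / 2 - 1 < z := by rw [hz]; have := Nat.lt_floor_add_one (L2 / 2); linarith
  have hz3 : L2 ≤ 3 * z := by linarith
  have hzy : z ≤ y := by
    have : (z : ℝ) ≤ y := by linarith
    exact_mod_cast this
  have hzz0 : z0 ≤ z := by
    have : (z0 : ℝ) ≤ z := by linarith
    exact_mod_cast this
  have hzge2 : 2 ≤ z := by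
    have : (2 : ℝ) ≤ z := by linarith
    exact_mod_cast this
  have hlogz : 3 * A / ε1 ≤ Real.log z := by
    rw [Real.le_log_iff_exp_le (by linarith)]
    linarith
  have hVup : Vq (Q f) y ≤ C' / L := by
    refine c2.trans ?_
    rw [hC', mul_div_assoc, hL]
    exact mul_le_mul_of_nonneg_left hV hC.le
  have hy3' : 2 ≤ y := by
    have h0 : (2 : ℝ) ≤ L := by linarith
    have : (2 : ℝ) ≤ y := by linarith
    exact_mod_cast this
  have hlogy0 : 0 < Real.log y := Real.log_pos (by exact_mod_cast (by omega : 1 < y))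
  have hVlo : v / L ^ c ≤ Vq (Q f) y := by
    refine le_trans ?_ (hVlow (Q f) hQ hadm y hy3')
    apply div_le_div_of_nonneg_left hv.le (by positivity)
    rw [hL]
    exact pow_le_pow_left₀ hlogy0.le hy3 c
  have hV0 : 0 < Vq (Q f) y := lt_of_lt_of_le (by positivity) hVlo
  refine hgen (Q f) Z Y y z hQ hadm b1 b2 b3 b4 hzz0 hzy ?_ ?_ ?_ t ht hmax q hq hqq0 hν
  · -- the primorial
    have h1 : (Mw z : ℝ) ≤ 4 ^ z := by
      have h2 : Mw z = primorial z := by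
        unfold Mw primorial
        apply prod_congr _ (fun _ _ => rfl)
        ext p
        rw [mem_pz, mem_filter, mem_range, Nat.lt_succ_iff]
      rw [h2]
      exact_mod_cast primorial_le_four_pow z
    have h2 : (4 : ℝ) ^ z ≤ L ^ (7 / 10 : ℝ) := by
      have h3 : (4 : ℝ) ^ z = Real.exp (z * (2 * Real.log 2)) := by
        rw [mul_comm, Real.exp_mul, Real.rpow_natCast]
        congr 1
        rw [show (2 : ℝ) * Real.log 2 = Real.log 2 + Real.log 2 by ring, Real.exp_add, Real.exp_log (by norm_num)]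
        norm_num
      rw [h3, Real.rpow_def_of_pos hLpos, ← hL2]
      apply Real.exp_le_exp.2
      have h4 := Real.log_two_lt_d9
      have h5 : 0 < Real.log 2 := Real.log_pos (by norm_num)
      have hz0' : (0 : ℝ) ≤ z := Nat.cast_nonneg _
      nlinarith
    have h5 : L ^ (7 / 10 : ℝ) * L ^ (3 / 10 : ℝ) = L := by
      rw [← Real.rpow_add hLpos]
      norm_num
    have h6 : C' ≤ κ * L ^ (3 / 10 : ℝ) := by
      rw [div_le_iff₀ hκ] at a6
      linarith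
    have hp7 : 0 < L ^ (7 / 10 : ℝ) := by positivity
    calc (Mw z : ℝ) * Vq (Q f) y ≤ L ^ (7 / 10 : ℝ) * (C' / L) :=
          mul_le_mul (h1.trans h2) hVup hV0.le hp7.le
      _ = C' * L ^ (7 / 10 : ℝ) / L := by ring
      _ ≤ κ := by
          rw [div_le_iff₀ hLpos]
          calc C' * L ^ (7 / 10 : ℝ) ≤ κ * L ^ (3 / 10 : ℝ) * L ^ (7 / 10 : ℝ) :=
                mul_le_mul_of_nonneg_right h6 hp7.le
            _ = κ * (L ^ (7 / 10 : ℝ) * L ^ (3 / 10 : ℝ)) := by ring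
            _ = κ * L := by rw [h5]
  · -- the square root
    have hY0 : (0 : ℝ) ≤ Y := Nat.cast_nonneg Y
    have h1 : (X : ℝ) ^ (θ / 2) ≤ √(Y : ℝ) := by
      apply Real.le_sqrt_of_sq_le
      rw [← Real.rpow_natCast, ← Real.rpow_mul hX0.le]
      have : θ / 2 * ((2 : ℕ) : ℝ) = θ := by push_cast; ring
      rw [this]
      exact hY
    have h2 : L ^ (2 * c) ≤ ε1 * v ^ 2 * √(Y : ℝ) := by
      have h3 := a8.trans h1
      rw [div_mul_eq_mul_div, one_mul, div_le_iff₀ (by positivity)] at h3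
      linarith
    have h4 : v ^ 2 / L ^ (2 * c) ≤ Vq (Q f) y ^ 2 := by
      have h5 : v ^ 2 / L ^ (2 * c) = (v / L ^ c) ^ 2 := by
        rw [div_pow, ← pow_mul, mul_comm c 2]
      rw [h5]
      exact pow_le_pow_left₀ (by positivity) hVlo 2
    have hs0 := Real.sqrt_nonneg (Y : ℝ)
    have hss : √(Y : ℝ) * √(Y : ℝ) = Y := Real.mul_self_sqrt hY0
    have h6 : 1 ≤ ε1 * √(Y : ℝ) * Vq (Q f) y ^ 2 := by
      calc (1 : ℝ) ≤ ε1 * √(Y : ℝ) * (v ^ 2 / L ^ (2 * c)) := by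
            rw [← mul_div_assoc, le_div_iff₀ (by positivity), one_mul]
            linarith
        _ ≤ _ := mul_le_mul_of_nonneg_left h4 (by positivity)
    calc √(Y : ℝ) = √(Y : ℝ) * 1 := (mul_one _).symm
      _ ≤ √(Y : ℝ) * (ε1 * √(Y : ℝ) * Vq (Q f) y ^ 2) := mul_le_mul_of_nonneg_left h6 hs0
      _ = ε1 * ((√(Y : ℝ) * √(Y : ℝ)) * Vq (Q f) y ^ 2) := by ring
      _ = _ := by rw [hss]
  · -- the collisions
    intro s hs hsV S hS
    have h1 : (s : ℝ) ≤ 2 / v ^ 2 * Real.log X ^ (2 * c) := by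
      rw [← hL]
      have h4 : v ^ 2 / L ^ (2 * c) ≤ Vq (Q f) y ^ 2 := by
        have h5 : v ^ 2 / L ^ (2 * c) = (v / L ^ c) ^ 2 := by
          rw [div_pow, ← pow_mul, mul_comm c 2]
        rw [h5]
        exact pow_le_pow_left₀ (by positivity) hVlo 2
      have h5 : (s : ℝ) * (v ^ 2 / L ^ (2 * c)) ≤ 2 :=
        (mul_le_mul_of_nonneg_left h4 (Nat.cast_nonneg s)).trans hsV
      rw [← mul_div_assoc, div_le_iff₀ (by positivity)] at h5
      rw [div_mul_eq_mul_div, le_div_iff₀ (by positivity)]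
      exact h5
    obtain ⟨h2, h3⟩ := a3 f hf s hs h1
    rw [← hL] at h3
    have h4 := card_primes_le S z (RR f s) hzge2 h2 (L ^ A) h3 (fun p hp => by
      obtain ⟨d1, d2, d3⟩ := hS p hp
      exact ⟨(mem_pz.1 d1).2, d2, RR_dvd hf s p d3⟩)
    rw [Real.log_pow, ← hL2] at h4
    have hA0 : (0 : ℝ) ≤ A := Nat.cast_nonneg _
    have hzr : (2 : ℝ) ≤ z := by exact_mod_cast hzge2
    have hlz : 0 < Real.log z := Real.log_pos (by linarith)
    have h5 : A * L2 ≤ ε1 * z * Real.log z := by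
      rw [div_le_iff₀ hε1] at hlogz
      calc A * L2 ≤ A * (3 * z) := mul_le_mul_of_nonneg_left hz3 hA0
        _ = 3 * A * z := by ring
        _ ≤ Real.log z * ε1 * z := mul_le_mul_of_nonneg_right hlogz (by linarith)
        _ = _ := by ring
    exact le_of_mul_le_mul_right (h4.trans h5) hlz

end Pool.Agent.Q236.JC
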